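import Pool.Agent.H25.SG5

set_option autoImplicit false

namespace Pool.Agent.Results.MP_3b7dc8_lc.Tiny
open Pool.Agent.H25.SG Finset Filter

theorem size_le {n : ℕ} (hn : 1 ≤ n) : size (gm n) (xx n) (yy n) (ee n) ≤ 200000 * (n + 1) ^ 3 := by
  have hK : 48 ≤ K n := by unfold K; omega
  have k : 2 * K n + 1 ≤ 256 * (n + 1) := by unfold K; omega
  have cV : Fintype.card (VV n) ≤ 19 * (n + 1) := by simp; omega
  have cP : Fintype.card (PP n) ≤ 4 * (n + 1) := by simp; omega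
  have s : ∀ {ι : Type} [Fintype ι] (f : ι → ℕ) (c : ℕ), (∀ i, f i ≤ c) →
      ∑ i, f i ≤ Fintype.card ι * c := fun f c h => sum_le_card_nsmul _ _ c fun i _ => h i
  have h1 := s _ _ fun v => s (fun w => sz ((gm n).pr v w)) _ fun w => (sz_le (pr_le hn v w) Kpos).trans k
  have h2 := s _ _ fun v => s (fun i => sz ((gm n).rew v i)) _ fun i => (sz_le (rw_le v i) Kpos).trans k
  have h3 := s (fun i => sz (xx n i) + sz (yy n i)) _ fun i =>
    add_le_add ((sz_le (by split_ifs <;> omega) Kpos).trans k)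
      ((sz_le (by split_ifs <;> omega) Kpos).trans k)
  have h4 : sz (ee n) ≤ _ := (sz_le (by omega) Kpos).trans k
  unfold size
  generalize Fintype.card (VV n) = v at *
  generalize Fintype.card (PP n) = p at *
  have e1 : v * (v + p) ≤ 19 * (n + 1) * (19 * (n + 1) + 4 * (n + 1)) := by gcongr
  have e2 : v * (v * (256 * (n + 1))) ≤ 19 * (n + 1) * (19 * (n + 1) * (256 * (n + 1))) := by gcongr
  have e3 : v * (p * (256 * (n + 1))) ≤ 19 * (n + 1) * (4 * (n + 1) * (256 * (n + 1))) := by gcongr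
  have e4 : p * (256 * (n + 1) + 256 * (n + 1)) ≤ 4 * (n + 1) * (256 * (n + 1) + 256 * (n + 1)) := by
    gcongr
  nlinarith [Nat.zero_le (n ^ 3), Nat.zero_le (n ^ 2)]

theorem grow (q : Polynomial ℕ) : ∃ n, 1 ≤ n ∧ q.eval n < 2 ^ n := by
  have h : (fun n : ℕ => ((q.eval n : ℕ) : ℝ)) =o[atTop] fun n => (2 : ℝ) ^ n := by
    induction q using Polynomial.induction_on' with
    | add p q hp hq => simpa using hp.add hq
    | monomial k a =>
      simpa using (isLittleO_pow_const_const_pow_of_one_lt (R := ℝ) k one_lt_two).const_mul_left (a : ℝ)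
  obtain ⟨n, h1, h2⟩ := ((eventually_ge_atTop 1).and (h.def (by norm_num : (0 : ℝ) < 1 / 2))).exists
  refine ⟨n, h1, ?_⟩
  simp only [Real.norm_natCast, norm_pow, Real.norm_ofNat] at h2
  have : (0 : ℝ) < 2 ^ n := by positivity
  exact_mod_cast (by linarith : ((q.eval n : ℕ) : ℝ) < 2 ^ n)

theorem result :
    (∀ n, 1 ≤ n → ∃ (V P : Type) (_ : Fintype V) (_ : Fintype P) (G : Game V P) (x y : P → ℚ) (ε : ℚ),
      Valid G ∧ 0 < ε ∧ size G x y ε ≤ 200000 * (n + 1) ^ 3 ∧ (∃ σ, NE G 0 σ ∧ Sat G x y 0 σ) ∧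
      ∀ σ, NE G ε σ → Sat G x y ε σ →
        ∃ v i w, ¬ G.term v ∧ G.own v = some i ∧ 0 < σ v w ∧ σ v w ≤ 1 / 2 ^ 2 ^ n) ∧
    ¬ ∃ p : Polynomial ℕ, ∀ (V P : Type) [Fintype V] [Fintype P] (G : Game V P) (x y : P → ℚ) (ε : ℚ),
      Valid G → 0 < ε → (∃ σ, NE G ε σ ∧ Sat G x y 0 σ) →
      ∃ σ, NE G ε σ ∧ Sat G x y 0 σ ∧ ∃ L ≤ p.eval (size G x y ε), FixedPt G σ L := by
  have he : ∀ n, 0 < ee n := fun n => by
    have := Kpos (n := n)
    unfold ee; positivity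
  refine ⟨fun n hn => ⟨_, _, _, _, gm n, xx n, yy n, ee n, valid, he n, size_le hn, exi, low hn⟩, ?_⟩
  rintro ⟨p, hp⟩
  obtain ⟨n, hn, h⟩ := grow (p.comp (200000 * (Polynomial.X + 1) ^ 3))
  have he' : (0 : ℝ) < ee n := by exact_mod_cast he n
  obtain ⟨σ, h1, h2, L, h3, h4⟩ := hp _ _ (gm n) (xx n) (yy n) (ee n) valid (he n) (by
    obtain ⟨σ, a, b⟩ := exi (n := n)
    exact ⟨σ, ⟨a.1, fun i τ k => (a.2 i τ k).trans (by linarith)⟩, b⟩)
  obtain ⟨v, i, w, a, b, c, d⟩ := low hn σ h1 fun i => ⟨by linarith [(h2 i).1], by linarith [(h2 i).2]⟩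
  obtain ⟨k, e⟩ := h4 v i w a b
  have k1 : 1 ≤ k := Nat.pos_of_ne_zero fun z => by simp [e, z] at c
  have : (1 : ℝ) / 2 ^ L ≤ 1 / 2 ^ 2 ^ n := le_trans (by rw [e]; gcongr; exact_mod_cast k1) d
  rw [one_div_le_one_div (by positivity) (by positivity), pow_le_pow_iff_right₀ one_lt_two] at this
  have m : p.eval (size (gm n) (xx n) (yy n) (ee n)) ≤ p.eval (200000 * (n + 1) ^ 3) := by
    simp only [Polynomial.eval_eq_sum_range]
    gcongr
    exact size_le hn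
  simp [Polynomial.eval_comp] at h
  omega

end Pool.Agent.Results.MP_3b7dc8_lc.Tiny
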